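import Pool.Agent.helper66.WD.Spec

/-!
Row wd:GEN (MP_dc9173_lc): a nonzero polynomial over an infinite field does not vanish somewhere.
-/

set_option autoImplicit false

universe u

namespace Pool.Agent.WD

open MvPolynomial Pool.Agent.helper92.VC

theorem GEN : GEN_stmt.{u} := by
  intro k _ _ n q hq
  by_contra h
  push Not at h
  refine hq (MvPolynomial.funext fun x => ?_)
  have h1 : Sum.elim (x ∘ Sum.inl) (x ∘ Sum.inr) = x := Sum.elim_comp_inl_inr x
  rw [map_zero, ← h1]
  exact h _ _

end Pool.Agent.WD
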