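import Pool.Agent.helper66.WD.Spec
import Pool.Agent.helper22.VC.CST

/-!
Row wd:SDG (MP_dc9173_lc): straight-line complexity of polynomials of small degree.
-/

set_option autoImplicit false

universe u

namespace Pool.Agent.WD

open MvPolynomial Pool.Agent.helper92.VC

/-- the monomials of degree at most `r` -/
noncomputable def SDG_T (n : ℕ) : ℕ → Finset (Fin n →₀ ℕ)
  | 0 => {0}
  | r + 1 => ((Finset.univ : Finset (Option (Fin n))) ×ˢ SDG_T n r).image fun q =>
      (match q.1 with
        | none => 0
        | some i => Finsupp.single i 1) + q.2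

theorem SDG_card (n r : ℕ) : (SDG_T n r).card ≤ (n + 1) ^ r := by
  induction r with
  | zero => simp [SDG_T]
  | succ r ih =>
    rw [SDG_T]
    refine Finset.card_image_le.trans ?_
    rw [Finset.card_product, Finset.card_univ, Fintype.card_option, Fintype.card_fin, pow_succ,
      mul_comm ((n + 1) ^ r)]
    exact Nat.mul_le_mul_left _ ih

theorem SDG_mem (n r : ℕ) (m : Fin n →₀ ℕ) (h : m.degree ≤ r) : m ∈ SDG_T n r := by
  induction r generalizing m with
  | zero =>
    have : m = 0 := (Finsupp.degree_eq_zero_iff m).1 (Nat.le_zero.1 h)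
    rw [this, SDG_T]
    exact Finset.mem_singleton_self 0
  | succ r ih =>
    rw [SDG_T, Finset.mem_image]
    by_cases h0 : m = 0
    · refine ⟨(none, 0), Finset.mem_product.2 ⟨Finset.mem_univ _, ih 0 (by simp)⟩, ?_⟩
      rw [h0]
      simp
    · obtain ⟨i, hi⟩ := Finsupp.ne_iff.1 h0
      have h1 : Finsupp.single i 1 ≤ m := by
        rw [Finsupp.single_le_iff]
        exact Nat.one_le_iff_ne_zero.2 hi
      have h2 : Finsupp.single i 1 + (m - Finsupp.single i 1) = m := add_tsub_cancel_of_le h1
      refine ⟨(some i, m - Finsupp.single i 1),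
        Finset.mem_product.2 ⟨Finset.mem_univ _, ih _ ?_⟩, h2⟩
      have h3 : (Finsupp.single i 1 + (m - Finsupp.single i 1)).degree = m.degree := by rw [h2]
      rw [map_add, Finsupp.degree_single] at h3
      change (m - Finsupp.single i 1).degree ≤ r
      omega

theorem SDG_E {k : Type u} [Field k] (n r : ℕ) (S : Set (MvPolynomial (Fin n) k)) (a : k)
    (m : Fin n →₀ ℕ) (h : m ∈ SDG_T n r) : CST_E S {monomial m a} r := by
  induction r generalizing m with
  | zero =>
    rw [SDG_T, Finset.mem_singleton] at h
    rw [h]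
    exact CST_E_C S a
  | succ r ih =>
    rw [SDG_T, Finset.mem_image] at h
    obtain ⟨⟨o, m'⟩, h1, h2⟩ := h
    have h3 := ih m' (Finset.mem_product.1 h1).2
    rcases o with _ | i
    · have h4 : m' = m := by rw [← h2]; simp
      rw [← h4]
      exact CST_E_mono h3 subset_rfl subset_rfl (Nat.le_succ r)
    · have h4 : (monomial m a : MvPolynomial (Fin n) k) = X i * monomial m' a := by
        rw [← h2, X, monomial_mul, one_mul]
      rw [h4]
      exact CST_E_mono (CST_E_mul (CST_E_X S i) h3) subset_rfl subset_rfl (by omega)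

theorem SDG : SDG_stmt.{u} := by
  intro n r k _ f hf
  have h1 := CST_E_sum (S := (∅ : Set (MvPolynomial (Fin n) k))) f.support
    (fun m => monomial m (coeff m f)) r fun m hm => SDG_E n r ∅ (coeff m f) m
      (SDG_mem n r m ((le_totalDegree hm).trans hf))
  rw [← f.as_sum] at h1
  obtain ⟨l, h2, h3, h4⟩ := h1 [] SLP.nil fun s hs => absurd hs (Set.notMem_empty s)
  rw [List.append_nil] at h2 h4
  refine ⟨l, h2, h3.trans ?_, h4 f rfl⟩
  have h5 : f.support.card ≤ (n + 1) ^ r := by
    refine le_trans (Finset.card_le_card fun m hm => ?_) (SDG_card n r)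
    exact SDG_mem n r m ((le_totalDegree hm).trans hf)
  exact Nat.mul_le_mul h5 (by omega)

end Pool.Agent.WD
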